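import Pool.Agent.Helper96.GU.St

set_option autoImplicit false

namespace Pool.Agent.Helper36.GU

open Pool.Agent.Helper96.UT hiding StTOP TopV TopE tht Bd VC EC
open Pool.Agent.Helper96.GU

private theorem Nc_mono {α : Type} {Ω : Type} [MulAction (FreeGroup α) Ω] (Z : Cyc α)
    {E E' : Set (Ω × α)} {C C' : Finset Ω} (hE : E ⊆ E') (hC : C ⊆ C') (v : Ω) :
    Nc Z E C v ≤ Nc Z E' C' v := by
  apply Subgroup.closure_mono
  rintro x ⟨p, h1, h2, h3⟩
  exact ⟨p, InE_mono hE h1, hC h2, h3⟩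

theorem tCOL (hG : StGDQ) (hR : StREQ) (hρ : StRHO) (hF : StFOR) : StCOL := by
  classical
  intro α Z Ω _ E C v
  induction hN : C.card generalizing E C with
  | zero =>
    intro hC hH x q hq hcl
    have h0 : C = ∅ := Finset.card_eq_zero.1 hN
    subst h0
    rw [hF α Z Ω E v hH x q hq hcl]
    exact Subgroup.one_mem _
  | succ N ih =>
    intro hC hH x q hq hcl
    have hne : C.Nonempty := by
      rw [← Finset.card_pos]
      omega
    obtain ⟨u, hu, k, hS⟩ := hG α Z Ω E C v hC hH hne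
    have hC' : ∀ y, y ∈ C.erase u ↔ y ∈ C ∧ y ≠ u := fun y => by
      rw [Finset.mem_erase, and_comm]
    obtain ⟨h1, h2⟩ := hR α Z Ω E C hC u hu k hS (C.erase u) hC'
    have h3 := h2 v ∅ hH (fun h hh => absurd hh (Set.notMem_empty _))
    obtain ⟨ρ, -, -, -, -, h5, h6⟩ := hρ α Z Ω E C hC u hu k hS
    obtain ⟨q', hq', hm, hcl'⟩ := h5 x q hq
    have hcard : (C.erase u).card = N := by
      rw [Finset.card_erase_of_mem hu]
      omega
    have h7 := ih _ _ hcard h1 h3 x q' hq' (by rw [hcl', hcl])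
    have h8 := Nc_mono Z Set.sdiff_subset (Finset.erase_subset u C) x h7
    have h9 := h6 x q hq
    have h10 : FreeGroup.mk q = (FreeGroup.mk q * (ρ x (FreeGroup.mk q))⁻¹) * FreeGroup.mk q' := by
      rw [hm, inv_mul_cancel_right]
    rw [h10]
    exact Subgroup.mul_mem _ h9 h8

end Pool.Agent.Helper36.GU
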