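import Pool.Agent.Helper96.GU.St

set_option autoImplicit false

namespace Pool.Agent.Helper36.GU

open Pool.Agent.Helper96.UT hiding StTOP TopV TopE tht Bd VC EC
open Pool.Agent.Helper96.GU

theorem tFRE : StFRE := by
  intro α Z Ω _ C u k hS u' hu' k' he
  rcases ed_eq he.symm with ⟨hv, _⟩ | ⟨hv, hx⟩
  · exact hS u' hu' k' hv
  · exfalso
    have h1 : act u' (pre Z.c (k' + 1)) = act u (pre Z.c k) := by
      rw [pre_succ, act_mul, hv, hx, lt_bar, ← act_mul, mul_inv_cancel, act_one]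
    obtain ⟨⟨q, hq⟩, _⟩ := hS u' hu' (k' + 1) h1
    have h2 : Z.c (k' + 1) = Z.c k := by
      have : k' + 1 = k + q * Z.n := by linarith
      rw [this, Z.per_mul]
    apply Z.red k'
    rw [h2, hx, bar_bar]

end Pool.Agent.Helper36.GU
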