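import Pool.Agent.Helper79.GU.St1

/-!
# Project GU, module SND: the decisive placements are sound if no board of the history is safe
-/

set_option autoImplicit false

namespace Pool.Agent.Helper36.GU

open Pool.Agent.Helper19.SK Pool.Agent.Helper73.DC Pool.Agent.Helper79.GS Pool.Agent.Helper79.GT
open Pool.Agent.Helper79.GU Finset
open scoped Classical

private theorem safe_step {P : Type} {A : Gm P} {c : Bool} {b b' : P}
    (h : A.mv (!c) b b' ∨ (A.mv c b b' ∧ A.mv (!c) b' b)) (hs : Safe A c b) : Safe A c b' :=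
  fun b₁ h₁ d => hs b₁ (Relation.ReflTransGen.head h h₁) d

private theorem calm_step {P : Type} {A : Gm P} {c : Bool} {b b' : P} (h : A.mv c b b')
    (h' : A.mv (!c) b' b) (hb : ∀ x, ¬ Safe A x b) : ∀ x, ¬ Safe A x b' := by
  intro x hx
  rcases Bool.eq_or_eq_not x c with e | e
  · subst e
    exact hb x (safe_step (Or.inl h') hx)
  · subst e
    refine hb (!c) (safe_step (Or.inr ⟨h', ?_⟩) hx)
    rw [Bool.not_not]
    exact h

private theorem calm_pl {P : Type} {A : Gm P} {sk : Bool} {H₀ : Set (Bool × P)} {c₀ : Bool}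
    {b₀ : P} {d₀ : ℤ} (h0 : ∀ c, ¬ Safe A c b₀) (hH : ∀ x ∈ H₀, ∀ c, ¬ Safe A c x.2)
    {H : Set (Bool × P)} {ps c : Bool} {b : P} {d : ℤ}
    (hp : Pl A sk (Dec A) H₀ c₀ b₀ d₀ H ps c b d) :
    (∀ x ∈ H, ∀ c, ¬ Safe A c x.2) ∧ ∀ c, ¬ Safe A c b := by
  induction hp with
  | start =>
    refine ⟨fun x hx => ?_, h0⟩
    rcases Set.mem_insert_iff.1 hx with e | e
    · rw [e]
      exact h0
    · exact hH x e
  | pass H c b d _ ih =>
    refine ⟨fun x hx => ?_, ih.2⟩
    rcases Set.mem_insert_iff.1 hx with e | e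
    · rw [e]
      exact ih.2
    · exact ih.1 x e
  | move H ps c b b' d _ hu _ ih =>
    have hb' : ∀ x, ¬ Safe A x b' := by
      rcases hu.2 with h | h
      · exact calm_step hu.1 h ih.2
      · intro x hx
        rcases Bool.eq_or_eq_not x c with e | e
        · exact h true (Or.inl ⟨rfl, e ▸ hx⟩)
        · exact h false (Or.inr ⟨rfl, Or.inl (e ▸ hx)⟩)
    refine ⟨fun x hx => ?_, hb'⟩
    rcases Set.mem_insert_iff.1 hx with e | e
    · rw [e]
      exact hb'
    · exact ih.1 x e

private theorem okk_of {P : Type} {sk c : Bool} {b : P} {H : Set (Bool × P)}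
    (h : ∀ s, (s, b) ∉ H) : okk sk c b H := by
  unfold okk
  split_ifs
  · exact h _
  · exact h

theorem hSND (hSWN : Pool.Agent.Helper79.GU.StSWN) : Pool.Agent.Helper79.GU.StSND := by
  intro P _ A sk H₀ c₀ b₀ d₀ h0 hH H ps c b d hp b' hm hn
  obtain ⟨hcH, hcb⟩ := calm_pl h0 hH hp
  have hok : ∀ x b₁, Safe A x b₁ → ∀ s, (s, b₁) ∉ H := fun x b₁ hs s hmem => hcH _ hmem x hs
  constructor
  · intro hD
    have hs : Safe A c b' := by
      rcases hD with h | h
      · exact h.2
      · exact absurd h.1 (by simp)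
    exact ⟨okk_of (hok c b' hs), hSWN P A sk c _ _ _ b' _ hs⟩
  · intro hD hk
    have hD' : Safe A (!c) b' ∨ ∃ b'', A.mv (!c) b' b'' ∧ Safe A (!c) b'' := by
      rcases hD with h | h
      · exact absurd h.1 (by simp)
      · exact h.2
    by_cases hs : Safe A (!c) b'
    · rw [hSWN P A sk (!c) _ _ _ b' _ hs]
      cases c <;> simp
    · rcases hD' with h | ⟨b'', hm'', hs''⟩
      · exact absurd h hs
      · have hne : b'' ≠ b' := fun e => hs (e ▸ hs'')
        have hok'' : okk sk (!c) b'' (insert (!c, b') H) := by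
          refine okk_of fun s hmem => ?_
          rcases Set.mem_insert_iff.1 hmem with e | e
          · exact hne (congrArg Prod.snd e)
          · exact hok _ _ hs'' s e
        cases c with
        | false =>
          refine iff_of_true ?_ rfl
          refine BWg.move _ _ _ b'' _ hm'' hok'' ?_
          exact (hSWN P A sk true _ _ _ b'' _ hs'').2 rfl
        | true =>
          refine iff_of_false ?_ (by simp)
          intro hB
          cases hB with
          | white _ _ _ _ _ _ h3 =>
            have h4 := h3 b'' hm'' hok''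
            have h5 := (hSWN P A sk false _ _ _ b'' _ hs'').1 h4
            exact absurd h5 (by simp)

end Pool.Agent.Helper36.GU
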